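import Pool.Agent.Helper76.CQ.Final

/-!
# Planes in cubic eightfolds: a 2-adic open set of potentially dense Calabi-Yau elevenfolds

For every rational cubic form `F` in ten variables which is 2-adically close to the explicit form
`F0`, some irreducible component of the variety of planes in the cubic eightfold `F = 0` has
potentially dense rational points. The component is the one through a plane which is periodic of
period ten, and 2-adically attracting, for the rational self-map that sends a plane `P` to the
residual plane of the three-dimensional linear space that meets the eightfold in `2 P`.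
-/

namespace Pool.Agent.Results.MP_9410e4_ag.CubicEightfoldsOpenSet

open MvPolynomial AlgebraicGeometry CategoryTheory Pool.Agent.Helper15 Pool.Agent.Helper76.CY
  Pool.Agent.Helper76.CQ

theorem result : ∃ N : ℕ, ∀ F : MvPolynomial (Fin 10) ℚ, F.IsHomogeneous 3 →
    (∀ e, ‖((coeff e F - coeff e F0 : ℚ) : ℚ_[2])‖ < (1 / 2) ^ N) →
    ∃ P : Ideal (MvPolynomial Idx ℚ), P ∈ (fanoIdeal F).minimalPrimes ∧
      (∃ ℓ : Fin 11 → MvPolynomial Idx ℚ, AlgebraicIndependent ℚ
        (fun i => (Ideal.Quotient.mk P (ℓ i) : MvPolynomial Idx ℚ ⧸ P))) ∧
      ∀ (X : Scheme.{0}) (s : X ⟶ Spec (CommRingCat.of ℚ)) [IrreducibleSpace X],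
        BirationalOver ℚ X (affineScheme P) s (affineStr P) → PotentiallyDense ℚ X s :=
  open_setQ

end Pool.Agent.Results.MP_9410e4_ag.CubicEightfoldsOpenSet
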