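import Pool.Agent.Helper35.TW.Cls

/-!
# Potential density of towers of fibrations over an arbitrary base
-/

set_option autoImplicit false

namespace Pool.Agent.Results.MP_9410e4_ag.FibrationTowers

open AlgebraicGeometry CategoryTheory MvPolynomial
open Pool.Agent.Helper15 Pool.Agent.Helper65.CB Pool.Agent.Helper65.TW Pool.Agent.Helper35.TW

theorem result (K : Type) [Field K] [NumberField K] (N : ℕ) (I : Ideal (MvPolynomial (Fin N) K))
    [I.IsPrime] (hI : Homog I) (hX : ∃ k, X k ∉ I)
    (R : Type) [CommRing R] [Algebra K R] (t : Ideal R) (hR : Tow K I ⟨R, t⟩) :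
    IsDomain R ∧
    (PotentiallyDense K (Spec (CommRingCat.of R))
        (Spec.map (CommRingCat.ofHom (algebraMap K R))) ↔
      PotentiallyDense K (Spec (CommRingCat.of (MvPolynomial (Fin N) K ⧸ I)))
        (Spec.map (CommRingCat.ofHom (algebraMap K (MvPolynomial (Fin N) K ⧸ I))))) ∧
    (PotentiallyDense K (Spec (CommRingCat.of (MvPolynomial (Fin N) K ⧸ I)))
        (Spec.map (CommRingCat.ofHom (algebraMap K (MvPolynomial (Fin N) K ⧸ I)))) →
      ∀ (Y : Scheme.{0}) (s : Y ⟶ Spec (CommRingCat.of K)),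
        DominatedOver K Y (Spec (CommRingCat.of R)) s
          (Spec.map (CommRingCat.ofHom (algebraMap K R))) → PotentiallyDense K Y s) := by
  obtain ⟨h1, h2⟩ := tower_main hI hX hR.tower
  exact ⟨h1, h2, fun h Y s hY => PotentiallyDense.of_dominated hY (h2.2 h)⟩

end Pool.Agent.Results.MP_9410e4_ag.FibrationTowers
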