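import Pool.Agent.Helper49.QU.Final

/-!
# Potential density of fibre products of quadric bundles over affine space
-/

set_option autoImplicit false

namespace Pool.Agent.Helper35.Retired.QuadricBundles

open NumberField AlgebraicGeometry CategoryTheory Pool.Agent.Helper15
open Pool.Agent.Helper65.CB Pool.Agent.Helper49.QU

theorem result (K : Type) [Field K] [NumberField K] (n r : ℕ) (N : Fin r → ℕ)
    (q : ∀ i : Fin r, Matrix (Fin (N i)) (Fin (N i)) (MvPolynomial (Fin n) K))
    (hq : ∀ i, (q i).IsSymm)
    (hr : ∀ i, ∃ f g : Fin 3 → Fin (N i), ((q i).submatrix f g).det ≠ 0)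
    (h : ∀ i, ∀ P : MvPolynomial (Fin n) (AlgebraicClosure K), Irreducible P →
      (∀ j : Fin n, (∀ l < j, P.degreeOf l = 0) → P.degreeOf j ≤ 3) ∨
        ¬ Minors ((q i).map (MvPolynomial.map (algebraMap K (AlgebraicClosure K)))) P ∨
        SplitAt ((q i).map (MvPolynomial.map (algebraMap K (AlgebraicClosure K)))) P) :
    ∃ d : MvPolynomial (Fin n) K, d ≠ 0 ∧ ∀ (X : Scheme.{0}) (s : X ⟶ Spec (CommRingCat.of K)),
      DominatedOver K X (Spec (CommRingCat.of (QRing q d))) s
        (Spec.map (CommRingCat.ofHom (algebraMap K (QRing q d)))) →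
      PotentiallyDense K X s :=
  t_quad K n r N q hq hr h

end Pool.Agent.Helper35.Retired.QuadricBundles
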